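import Pool.Agent.Results.MP_bd9a46_an.NotAlgebra
import Pool.Agent.Y937.Op.Base
import Pool.Agent.Y937.Op.Dual

/-!
# No nonlinear analytic function operates on `X_4`

The definitions `IsHinf`, `IsMp`, `InX` are those of `Pool.Agent.Results.MP_bd9a46_an.NotAlgebra`.
-/

set_option autoImplicit false

open MeasureTheory AddCircle Filter Topology Asymptotics

namespace Pool.Agent.Results.MP_bd9a46_an.NoFunctionOperates

open Pool.Agent.Results.MP_bd9a46_an.NotAlgebra
open Pool.Agent.Y937.Op (memLp_cont memLp_mul integrable_top coeff_add coeff_mem)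

lemma coeff_smul (c : ℂ) (F : UnitAddCircle → ℂ) (n : ℤ) :
    fourierCoeff (fun x => c * F x) n = c * fourierCoeff F n := by
  unfold fourierCoeff
  rw [← integral_const_mul]
  congr 1
  funext θ
  simp only [smul_eq_mul]
  ring

lemma coeff_const (c : ℂ) {n : ℤ} (hn : n < 0) :
    fourierCoeff (fun _ : UnitAddCircle => c) n = 0 := by
  have h := congrFun (fourierCoeff_fourier (T := 1) 0) n
  have e : fourierCoeff (fourier 0 : C(UnitAddCircle, ℂ)) n
      = fourierCoeff (fun _ : UnitAddCircle => (1 : ℂ)) n := by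
    unfold fourierCoeff
    congr 1
    funext θ
    rw [fourier_zero]
  have h2 : fourierCoeff (fun _ : UnitAddCircle => (1 : ℂ)) n = 0 := by
    rw [← e]
    refine h.trans ?_
    rw [Pi.single_apply, if_neg (by omega)]
  have h3 := coeff_smul c (fun _ => 1) n
  rw [h2, mul_zero] at h3
  simpa using h3

lemma isHinf_const (c : ℂ) : IsHinf (fun _ => c) :=
  ⟨memLp_cont continuous_const, fun _ hn => coeff_const c hn⟩

lemma isHinf_add {f g : UnitAddCircle → ℂ} (hf : IsHinf f) (hg : IsHinf g) :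
    IsHinf (fun x => f x + g x) :=
  ⟨hf.1.add hg.1, fun n hn => by rw [coeff_add hf.1 hg.1, hf.2 n hn, hg.2 n hn, add_zero]⟩

lemma isHinf_smul (c : ℂ) {f : UnitAddCircle → ℂ} (hf : IsHinf f) :
    IsHinf (fun x => c * f x) :=
  ⟨hf.1.const_mul c, fun n hn => by rw [coeff_smul, hf.2 n hn, mul_zero]⟩

lemma isMp_add {f g : UnitAddCircle → ℂ} (hf : IsMp 4 f) (hg : IsMp 4 g) :
    IsMp 4 (fun x => f x + g x) := by
  have : Fact ((1 : ENNReal) ≤ 4) := ⟨by norm_num⟩
  obtain ⟨hf1, C, hC⟩ := hf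
  obtain ⟨hg1, D, hD⟩ := hg
  refine ⟨hf1.add hg1, C + D, fun u => ?_⟩
  obtain ⟨a, ha1, ha2⟩ := hC u
  obtain ⟨b, hb1, hb2⟩ := hD u
  refine ⟨a + b, fun n => ?_, ?_⟩
  · have h := (ha1 n).add (hb1 n)
    have e : (fun m => fourierCoeff (fun x => f x + g x) (n - m) * u m)
        = fun m => fourierCoeff f (n - m) * u m + fourierCoeff g (n - m) * u m := by
      funext m
      rw [coeff_add hf1 hg1]
      ring
    rw [e]
    exact h
  · refine (norm_add_le a b).trans ?_
    rw [add_mul]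
    exact add_le_add ha2 hb2

lemma isMp_smul (c : ℂ) {f : UnitAddCircle → ℂ} (hf : IsMp 4 f) :
    IsMp 4 (fun x => c * f x) := by
  have : Fact ((1 : ENNReal) ≤ 4) := ⟨by norm_num⟩
  obtain ⟨hf1, C, hC⟩ := hf
  refine ⟨hf1.const_mul c, ‖c‖ * C, fun u => ?_⟩
  obtain ⟨a, ha1, ha2⟩ := hC u
  refine ⟨c • a, fun n => ?_, ?_⟩
  · have h := (ha1 n).mul_left c
    have e : (fun m => fourierCoeff (fun x => c * f x) (n - m) * u m)
        = fun m => c * (fourierCoeff f (n - m) * u m) := by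
      funext m
      rw [coeff_smul, mul_assoc]
    rw [e]
    exact h
  · rw [norm_smul, mul_assoc]
    exact mul_le_mul_of_nonneg_left ha2 (norm_nonneg _)

lemma inX_add {u v : UnitAddCircle → ℂ} (hu : InX 4 u) (hv : InX 4 v) :
    InX 4 (fun x => u x + v x) := by
  refine ⟨hu.1.add hv.1, fun ε hε => ?_⟩
  obtain ⟨g, ψ, hg, hψ, h1⟩ := hu.2 (ε / 2) (by positivity)
  obtain ⟨g', ψ', hg', hψ', h2⟩ := hv.2 (ε / 2) (by positivity)
  refine ⟨_, _, isHinf_add hg hg', isMp_add hψ hψ', ?_⟩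
  have e : (fun x => u x + v x - ((g x + g' x) + (ψ x + ψ' x)))
      = (fun x => u x - (g x + ψ x)) + fun x => v x - (g' x + ψ' x) := by
    funext x
    simp only [Pi.add_apply]
    ring
  rw [e]
  refine (eLpNorm_add_le (hu.1.sub (hg.1.add hψ.1)).1 (hv.1.sub (hg'.1.add hψ'.1)).1 le_top).trans ?_
  refine (add_le_add h1 h2).trans ?_
  rw [← ENNReal.ofReal_add (by positivity) (by positivity)]
  exact ENNReal.ofReal_le_ofReal (by linarith)

lemma inX_smul (c : ℂ) {u : UnitAddCircle → ℂ} (hu : InX 4 u) :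
    InX 4 (fun x => c * u x) := by
  refine ⟨hu.1.const_mul c, fun ε hε => ?_⟩
  obtain ⟨g, ψ, hg, hψ, h1⟩ := hu.2 (ε / (‖c‖ + 1)) (by positivity)
  refine ⟨_, _, isHinf_smul c hg, isMp_smul c hψ, ?_⟩
  have e : (fun x => c * u x - (c * g x + c * ψ x)) = c • fun x => u x - (g x + ψ x) := by
    funext x
    simp only [Pi.smul_apply, smul_eq_mul]
    ring
  rw [e, eLpNorm_const_smul]
  refine (mul_le_mul_right h1 _).trans ?_
  rw [← ofReal_norm, ← ENNReal.ofReal_mul (norm_nonneg _)]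
  apply ENNReal.ofReal_le_ofReal
  rw [mul_div_assoc', div_le_iff₀ (by positivity)]
  nlinarith [norm_nonneg c]

/-- `X_4` as a linear space of functions. -/
def xSub : Submodule ℂ (UnitAddCircle → ℂ) where
  carrier := {u | InX 4 u}
  add_mem' := fun ha hb => inX_add ha hb
  zero_mem' := inX_of_isHinf (isHinf_const 0)
  smul_mem' := fun c _ hu => inX_smul c hu

lemma ae_bound {w : UnitAddCircle → ℂ} (hw : MemLp w ⊤ haarAddCircle) :
    ∃ B : ℝ, 0 ≤ B ∧ ∀ᵐ x ∂(haarAddCircle : Measure UnitAddCircle), ‖w x‖ ≤ B := by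
  have h1 := enorm_ae_le_eLpNormEssSup w (haarAddCircle : Measure UnitAddCircle)
  have h2 : eLpNormEssSup w (haarAddCircle : Measure UnitAddCircle) ≠ ⊤ := by
    rw [← eLpNorm_exponent_top]; exact hw.2.ne
  refine ⟨(eLpNormEssSup w haarAddCircle).toReal, ENNReal.toReal_nonneg, ?_⟩
  filter_upwards [h1] with x hx
  rw [← ofReal_norm] at hx
  exact (ENNReal.ofReal_le_iff_le_toReal h2).1 hx

/-- If `w ∈ X_4` and `w² ∉ X_4`, and `F` has a second order Taylor expansion at `s` with nonzero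
second coefficient, then `F (s + t w) ∉ X_4` for all small `t ≠ 0`. -/
lemma peano {w : UnitAddCircle → ℂ} (hw : InX 4 w) (hww : ¬ InX 4 (fun x => w x ^ 2))
    (F : ℂ → ℂ) (s b a : ℂ) (ha : a ≠ 0)
    (hF : (fun z => F (s + z) - (F s + b * z + a * z ^ 2)) =o[𝓝 0] fun z => z ^ 2) :
    ∀ᶠ t : ℂ in 𝓝[≠] 0, ¬ InX 4 (fun x => F (s + t * w x)) := by
  have hw2 : MemLp (fun x => w x ^ 2) ⊤ haarAddCircle := by
    simpa only [pow_two] using memLp_mul hw.1 hw.1
  obtain ⟨ε, hε, hdist⟩ : ∃ ε : ℝ, 0 < ε ∧ ∀ g ψ : UnitAddCircle → ℂ, IsHinf g → IsMp 4 ψ →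
      ¬ eLpNorm (fun x => w x ^ 2 - (g x + ψ x)) ⊤ haarAddCircle ≤ ENNReal.ofReal ε := by
    by_contra hcon
    push Not at hcon
    refine hww ⟨hw2, fun ε hε => ?_⟩
    obtain ⟨g, ψ, h1, h2, h3⟩ := hcon ε hε
    exact ⟨g, ψ, h1, h2, h3⟩
  obtain ⟨B, hB0, hB⟩ := ae_bound hw.1
  -- the remainder
  set η : ℝ := ‖a‖ * ε / (2 * (B ^ 2 + 1)) with hη
  have hη0 : 0 < η := by
    have := norm_pos_iff.2 ha
    positivity
  have h1 := hF.def hη0
  rw [Metric.eventually_nhds_iff] at h1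
  obtain ⟨δ, hδ, h2⟩ := h1
  rw [eventually_nhdsWithin_iff, Metric.eventually_nhds_iff]
  refine ⟨δ / (B + 1), by positivity, fun t ht ht0 hX => ?_⟩
  have ht0' : t ≠ 0 := ht0
  rw [dist_zero_right, lt_div_iff₀ (by positivity)] at ht
  -- the function `R`
  set R : UnitAddCircle → ℂ := fun x =>
    (a * t ^ 2)⁻¹ * (F (s + t * w x) + (-(F s) + (-(b * t)) * w x)) with hR
  have hRX : InX 4 R :=
    inX_smul _ (inX_add hX (inX_add (inX_of_isHinf (isHinf_const _)) (inX_smul _ hw)))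
  obtain ⟨g, ψ, hg, hψ, h3⟩ := hRX.2 (ε / 2) (by positivity)
  refine hdist g ψ hg hψ ?_
  have e : (fun x => w x ^ 2 - (g x + ψ x)) = (fun x => w x ^ 2 - R x) +
      fun x => R x - (g x + ψ x) := by
    funext x
    simp only [Pi.add_apply]
    ring
  rw [e]
  refine (eLpNorm_add_le (hw2.sub hRX.1).1 (hRX.1.sub (hg.1.add hψ.1)).1 le_top).trans ?_
  have h4 : eLpNorm (fun x => w x ^ 2 - R x) ⊤ (haarAddCircle : Measure UnitAddCircle)
      ≤ ENNReal.ofReal (ε / 2) := by
    rw [eLpNorm_exponent_top]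
    refine eLpNormEssSup_le_of_ae_bound ?_
    filter_upwards [hB] with x hx
    have h5 := h2 (y := t * w x) (by
      rw [dist_zero_right, norm_mul]
      refine lt_of_le_of_lt ?_ ht
      exact mul_le_mul_of_nonneg_left (by linarith) (norm_nonneg _))
    have h6 : w x ^ 2 - R x = -((a * t ^ 2)⁻¹ *
        (F (s + t * w x) - (F s + b * (t * w x) + a * (t * w x) ^ 2))) := by
      rw [hR]
      have h7 : (a * t ^ 2)⁻¹ * (a * t ^ 2) = 1 := inv_mul_cancel₀ (by positivity)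
      linear_combination (-(w x ^ 2)) * h7
    rw [h6, norm_neg, norm_mul, norm_inv, norm_mul, norm_pow]
    have hpos : 0 < ‖a‖ * ‖t‖ ^ 2 := by
      have := norm_pos_iff.2 ha
      have := norm_pos_iff.2 ht0'
      positivity
    rw [inv_mul_le_iff₀ hpos]
    refine h5.trans ?_
    rw [norm_pow, norm_mul, hη, mul_pow]
    have hx2 : ‖w x‖ ^ 2 ≤ B ^ 2 := pow_le_pow_left₀ (norm_nonneg _) hx 2
    have h8 : ‖w x‖ ^ 2 / (B ^ 2 + 1) ≤ 1 := by
      rw [div_le_one (by positivity)]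
      linarith
    have e9 : ‖a‖ * ε / (2 * (B ^ 2 + 1)) * (‖t‖ ^ 2 * ‖w x‖ ^ 2)
        = (‖a‖ * ‖t‖ ^ 2 * (ε / 2)) * (‖w x‖ ^ 2 / (B ^ 2 + 1)) := by
      field_simp
    rw [e9]
    exact mul_le_of_le_one_right (by positivity) h8
  refine (add_le_add h4 h3).trans ?_
  rw [← ENNReal.ofReal_add (by positivity) (by positivity)]
  exact ENNReal.ofReal_le_ofReal (by linarith)

/-- Analytic functions have second order Taylor expansions. -/
lemma analytic_peano {F : ℂ → ℂ} {s : ℂ} (hF : AnalyticAt ℂ F s) :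
    ∃ b : ℂ, (fun z => F (s + z) - (F s + b * z + (iteratedDeriv 2 F s / 2) * z ^ 2))
      =o[𝓝 0] fun z => z ^ 2 := by
  have h1 := hF.hasFPowerSeriesAt.isBigO_sub_partialSum_pow 3
  refine ⟨iteratedDeriv 1 F s, ?_⟩
  have h2 : (fun y : ℂ => ‖y‖ ^ 3) =o[𝓝 0] fun y : ℂ => y ^ 2 := by
    rw [← isLittleO_norm_right]
    simp only [norm_pow]
    have h3 : (fun y : ℂ => y ^ 3) =o[𝓝 0] fun y : ℂ => y ^ 2 :=
      isLittleO_pow_pow (by norm_num)
    have h4 := h3.norm_norm
    simpa only [norm_pow] using h4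
  have h5 := h1.trans_isLittleO h2
  refine h5.congr_left fun z => ?_
  simp only [FormalMultilinearSeries.partialSum, Finset.sum_range_succ, Finset.sum_range_zero,
    FormalMultilinearSeries.ofScalars_apply_eq]
  simp [Nat.factorial]

/-- The coefficients of `(v + t w)²`, a polynomial in `t`. -/
lemma square_exp (v w : UnitAddCircle → ℂ) (t : ℂ) :
    (∑ k ∈ Finset.range (2 + 1), t ^ k • (fun k => if k = 0 then v * v
      else if k = 1 then (2 : ℂ) • (v * w) else w * w) k) = fun x => (v x + t * w x) ^ 2 := by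
  funext x
  simp [Finset.sum_range_succ]
  ring

lemma squares {v w : UnitAddCircle → ℂ} (hw : ¬ InX 4 (fun x => w x ^ 2)) :
    {t : ℂ | InX 4 (fun x => (v x + t * w x) ^ 2)}.encard ≤ 2 := by
  by_contra hlt
  push Not at hlt
  have h2 := coeff_mem xSub 2
    (fun k => if k = 0 then v * v else if k = 1 then (2 : ℂ) • (v * w) else w * w) _
    (fun t ht => ?_) hlt 2 le_rfl
  · simp only [OfNat.ofNat_ne_zero, OfNat.ofNat_ne_one, if_false] at h2
    apply hw
    have e : (fun x => w x ^ 2) = w * w := by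
      funext x
      simp [pow_two]
    rw [e]
    exact h2
  · rw [square_exp]
    exact ht

lemma polys {w : UnitAddCircle → ℂ} (hww : ¬ InX 4 (fun x => w x ^ 2)) (q : Polynomial ℂ) (s : ℂ)
    (hs : q.derivative.derivative.eval s ≠ 0) :
    {t : ℂ | InX 4 (fun x => q.eval (s + t * w x))}.encard ≤ q.natDegree := by
  by_contra hlt
  push Not at hlt
  have hder : (Polynomial.taylor s q).coeff 2 ≠ 0 := by
    rw [Polynomial.taylor_coeff]
    intro h0
    apply hs
    have h1 : Nat.factorial 2 • Polynomial.hasseDeriv 2 q = q.derivative.derivative :=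
      congrFun (Polynomial.factorial_smul_hasseDeriv (R := ℂ) (k := 2)) q
    rw [← h1, Polynomial.eval_smul, h0, smul_zero]
  have hdeg : 2 ≤ q.natDegree := by
    by_contra hd
    apply hder
    apply Polynomial.coeff_eq_zero_of_natDegree_lt
    rw [Polynomial.natDegree_taylor]
    omega
  have h2 := coeff_mem xSub q.natDegree
    (fun k => (Polynomial.taylor s q).coeff k • (w ^ k)) _ (fun t ht => ?_) hlt 2 hdeg
  · have h3 := xSub.smul_mem ((Polynomial.taylor s q).coeff 2)⁻¹ h2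
    rw [smul_smul, inv_mul_cancel₀ hder, one_smul] at h3
    exact hww h3
  · have h4 : (∑ k ∈ Finset.range (q.natDegree + 1),
        t ^ k • (Polynomial.taylor s q).coeff k • w ^ k) = fun x => q.eval (s + t * w x) := by
      funext x
      have h5 : q.eval (s + t * w x) = (Polynomial.taylor s q).eval (t * w x) := by
        rw [Polynomial.taylor_eval, add_comm]
      rw [h5, Polynomial.eval_eq_sum_range, Polynomial.natDegree_taylor, Finset.sum_apply]
      refine Finset.sum_congr rfl fun k _ => ?_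
      simp only [Pi.smul_apply, Pi.pow_apply, smul_eq_mul]
      ring
    rw [h4]
    exact ht

/-- The case `p = 4` of the theorem. -/
theorem four : ∃ h φ : UnitAddCircle → ℂ, IsHinf h ∧ IsMp 4 φ ∧
    ¬ InX 4 (fun x => h x * φ x) ∧
    (∀ s t : ℂ, InX 4 (fun x => s + t * (h x + φ x))) ∧
    ¬ InX 4 (fun x => (h x + φ x) ^ 2) ∧
    (∀ (F : ℂ → ℂ) (s : ℂ), AnalyticAt ℂ F s → iteratedDeriv 2 F s ≠ 0 →
      ∀ᶠ t : ℂ in 𝓝[≠] 0, ¬ InX 4 (fun x => F (s + t * (h x + φ x)))) ∧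
    (∀ (F : ℂ → ℂ) (s b a : ℂ), a ≠ 0 →
      (fun z => F (s + z) - (F s + b * z + a * z ^ 2)) =o[𝓝 0] (fun z => z ^ 2) →
      ∀ᶠ t : ℂ in 𝓝[≠] 0, ¬ InX 4 (fun x => F (s + t * (h x + φ x)))) ∧
    (∀ (q : Polynomial ℂ) (s : ℂ), q.derivative.derivative.eval s ≠ 0 →
      {t : ℂ | InX 4 (fun x => q.eval (s + t * (h x + φ x)))}.encard ≤ q.natDegree) ∧
    (∀ v : UnitAddCircle → ℂ, InX 4 v →
      {t : ℂ | InX 4 (fun x => (v x + t * (h x + φ x)) ^ 2)}.encard ≤ 2) := by
  obtain ⟨u, v, ⟨hu, hv⟩, -, -, huv⟩ := NotAlgebra.result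
  have hfin : {t : ℂ | InX 4 (fun x => (u x + t * v x) ^ 2)}.encard ≤ 2 := by
    by_contra hlt
    push Not at hlt
    have h2 := coeff_mem xSub 2
      (fun k => if k = 0 then u * u else if k = 1 then (2 : ℂ) • (u * v) else v * v) _
      (fun t ht => ?_) hlt 1 (by norm_num)
    · simp only [one_ne_zero, if_false, if_true] at h2
      have h3 := xSub.smul_mem (1 / 2 : ℂ) h2
      rw [smul_smul, show (1 / 2 : ℂ) * 2 = 1 by norm_num, one_smul] at h3
      exact huv h3
    · rw [square_exp]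
      exact ht
  obtain ⟨t0, ht0, h0⟩ : ∃ t0 : ℂ, t0 ≠ 0 ∧ ¬ InX 4 (fun x => (u x + t0 * v x) ^ 2) := by
    by_contra hcon
    push Not at hcon
    have hsub : ({0}ᶜ : Set ℂ) ⊆ {t : ℂ | InX 4 (fun x => (u x + t * v x) ^ 2)} :=
      fun t ht => hcon t ht
    have hinf : ({0}ᶜ : Set ℂ).Infinite := (Set.finite_singleton (0 : ℂ)).infinite_compl
    have h3 := (Set.encard_le_encard hsub).trans hfin
    rw [hinf.encard_eq] at h3
    exact absurd h3 (by simp)
  have hφ : IsMp 4 (fun x => t0 * v x) := isMp_smul t0 hv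
  have hw : InX 4 (fun x => u x + t0 * v x) := inX_add (inX_of_isHinf hu) (inX_of_isMp hφ)
  refine ⟨u, fun x => t0 * v x, hu, hφ, ?_, ?_, h0, ?_, ?_, ?_, ?_⟩
  · intro hX
    have h3 := inX_smul t0⁻¹ hX
    apply huv
    have e : (fun x => t0⁻¹ * (u x * (t0 * v x))) = fun x => u x * v x := by
      funext x
      field_simp
    rw [← e]
    exact h3
  · intro s t
    exact inX_add (inX_of_isHinf (isHinf_const s)) (inX_smul t hw)
  · intro F s hF hne
    obtain ⟨b, hb⟩ := analytic_peano hF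
    exact peano hw h0 F s b _ (div_ne_zero hne two_ne_zero) hb
  · intro F s b a ha hF
    exact peano hw h0 F s b a ha hF
  · intro q s hs
    exact polys h0 q s hs
  · intro v' _
    exact squares h0

lemma isMp43 (u : UnitAddCircle → ℂ) : IsMp (4 / 3) u ↔ IsMp 4 u := by
  have h := Pool.Agent.Y937.Op.isMp_iff (p := 4 / 3) (q := 4)
    (Real.holderConjugate_iff.2 ⟨by norm_num, by norm_num⟩) u
  rw [ENNReal.ofReal_div_of_pos (by norm_num)] at h
  simpa using h

lemma inX43 (u : UnitAddCircle → ℂ) : InX (4 / 3) u ↔ InX 4 u := by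
  unfold InX
  simp only [isMp43]

/-- `M_p = M_q` and `X_p = X_q` for conjugate exponents `p`, `q`. Moreover there are `h ∈ H^∞` and
`φ ∈ M_4 = M_{4/3}` such that for `p = 4` and for `p = 4/3` one has `h φ ∉ X_p` and the function
`w = h + φ` has the following properties.

* `s + t w ∈ X_p` for all `s, t ∈ ℂ`, and `w² ∉ X_p`;
* no analytic function with a nonzero second derivative operates on `X_p`: if `F : ℂ → ℂ` is
  analytic at `s` and `F''(s) ≠ 0`, then `F(s + t w) ∉ X_p` for all `t ≠ 0` near `0`; the same holds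
  for every function `F` with a second order Taylor (Peano) expansion at `s` whose second
  coefficient is not zero;
* if `q` is a polynomial and `q''(s) ≠ 0` then `q(s + t w) ∈ X_p` for at most `deg q` numbers `t`;
* for every `v ∈ X_p` one has `(v + t w)² ∈ X_p` for at most two numbers `t`. -/
theorem result :
    (∀ p q : ℝ, p.HolderConjugate q → ∀ u : UnitAddCircle → ℂ,
      (IsMp (ENNReal.ofReal p) u ↔ IsMp (ENNReal.ofReal q) u) ∧
      (InX (ENNReal.ofReal p) u ↔ InX (ENNReal.ofReal q) u)) ∧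
    ∃ h φ : UnitAddCircle → ℂ, IsHinf h ∧ ∀ p : ENNReal, p = 4 ∨ p = 4 / 3 →
      IsMp p φ ∧
      ¬ InX p (fun x => h x * φ x) ∧
      (∀ s t : ℂ, InX p (fun x => s + t * (h x + φ x))) ∧
      ¬ InX p (fun x => (h x + φ x) ^ 2) ∧
      (∀ (F : ℂ → ℂ) (s : ℂ), AnalyticAt ℂ F s → iteratedDeriv 2 F s ≠ 0 →
        ∀ᶠ t : ℂ in 𝓝[≠] 0, ¬ InX p (fun x => F (s + t * (h x + φ x)))) ∧
      (∀ (F : ℂ → ℂ) (s b a : ℂ), a ≠ 0 →
        (fun z => F (s + z) - (F s + b * z + a * z ^ 2)) =o[𝓝 0] (fun z => z ^ 2) →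
        ∀ᶠ t : ℂ in 𝓝[≠] 0, ¬ InX p (fun x => F (s + t * (h x + φ x)))) ∧
      (∀ (q : Polynomial ℂ) (s : ℂ), q.derivative.derivative.eval s ≠ 0 →
        {t : ℂ | InX p (fun x => q.eval (s + t * (h x + φ x)))}.encard ≤ q.natDegree) ∧
      (∀ v : UnitAddCircle → ℂ, InX p v →
        {t : ℂ | InX p (fun x => (v x + t * (h x + φ x)) ^ 2)}.encard ≤ 2) := by
  refine ⟨fun p q hpq u => ⟨Pool.Agent.Y937.Op.isMp_iff hpq u,
    Pool.Agent.Y937.Op.inX_iff hpq u⟩, ?_⟩
  obtain ⟨h, φ, hh, H⟩ := four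
  refine ⟨h, φ, hh, fun p hp => ?_⟩
  rcases hp with rfl | rfl
  · exact H
  · simp only [isMp43, inX43]
    exact H

end Pool.Agent.Results.MP_bd9a46_an.NoFunctionOperates
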